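import Pool.Agent.H65.PK.Targets

/-!
Row GFB of the board pker_modules (MP_58ae59_nt): a good irreducible factor, separate weights for
the degree and for the Mahler measure. After `Pool/Agent/H98/TD1/GFA.lean`.
-/

set_option autoImplicit false

open Polynomial Module Filter Topology Pool.Agent.H65.PK

namespace Pool.Agent.H75.PKER

noncomputable section

/-- the weight -/
private def wt (a b : ℝ) (Q : ℤ[X]) : ℝ := a * Q.natDegree + b * mz Q

private theorem mz_C {k : ℤ} (hk : k ≠ 0) : 0 ≤ mz (C k) := by
  unfold mz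
  rw [Polynomial.map_C, logMahlerMeasure_const]
  have h1 : (1 : ℤ) ≤ |k| := Int.one_le_abs hk
  have h3 : ‖(Int.castRingHom ℂ) k‖ = |(k : ℝ)| := by
    rw [Int.coe_castRingHom]
    exact Complex.norm_intCast _
  rw [h3]
  have h4 : (1 : ℝ) ≤ |(k : ℝ)| := by exact_mod_cast h1
  exact Real.log_nonneg h4

private theorem norm_C {k : ℤ} (hk : k ≠ 0) (θ : ℂ) : 1 ≤ ‖aeval θ (C k : ℤ[X])‖ := by
  have h1 : (1 : ℤ) ≤ |k| := Int.one_le_abs hk
  have h2 : aeval θ (C k : ℤ[X]) = (k : ℂ) := by simp
  rw [h2, Complex.norm_intCast]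
  exact_mod_cast h1

theorem pf_GFB (hS : T_MZB) : T_GFB := by
  intro θ R A B a b hR ha hb hA hB hw hs
  obtain ⟨hmul, hnn, -, -⟩ := hS
  by_contra hno
  push Not at hno
  have hR0 : R ≠ 0 := by
    rintro rfl
    simp at hR
  have hsR : wt a b R ≤ B := hw
  set lam : ℝ := A / B with hlam
  have hlam0 : 0 < lam := by
    rw [hlam]
    positivity
  have hw0 : ∀ Q : ℤ[X], Q ≠ 0 → 0 ≤ wt a b Q := by
    intro Q hQ
    have h1 : (0 : ℝ) ≤ (Q.natDegree : ℝ) := Nat.cast_nonneg _
    have h2 := hnn Q hQ
    unfold wt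
    positivity
  have hwm : ∀ P Q : ℤ[X], P ≠ 0 → Q ≠ 0 → wt a b (P * Q) = wt a b P + wt a b Q := by
    intro P Q hP hQ
    unfold wt
    rw [Polynomial.natDegree_mul hP hQ, hmul P Q hP hQ]
    push_cast
    ring
  have claim : ∀ Q : ℤ[X], Q ≠ 0 → Q ∣ R →
      Real.exp (-(lam * wt a b Q)) ≤ ‖aeval θ Q‖ ∧
      (1 ≤ Q.natDegree → Real.exp (-(lam * wt a b Q)) < ‖aeval θ Q‖) := by
    intro Q
    refine WfDvdMonoid.induction_on_irreducible Q ?_ ?_ ?_
    · intro h
      exact absurd rfl h
    · intro u hu hu0 _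
      have hu1 : IsUnit u := hu
      obtain ⟨k, hk, hku⟩ := Polynomial.isUnit_iff.mp hu1
      have hk0 : k ≠ 0 := hk.ne_zero
      subst hku
      have a1 := norm_C hk0 θ
      have a2 := hw0 (C k) hu0
      have a3 : Real.exp (-(lam * wt a b (C k))) ≤ 1 := by
        apply Real.exp_le_one_iff.mpr
        have := mul_nonneg hlam0.le a2
        linarith
      refine ⟨le_trans a3 a1, ?_⟩
      intro h
      rw [Polynomial.natDegree_C] at h
      omega
    · intro q p hq hp ih hpa hdvd
      have hp0 : p ≠ 0 := hp.ne_zero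
      have hda : q ∣ R := dvd_trans (Dvd.intro_left p rfl) hdvd
      have hdp : p ∣ R := dvd_trans (Dvd.intro q rfl) hdvd
      obtain ⟨i1, i2⟩ := ih hq hda
      have hszm : wt a b (p * q) = wt a b p + wt a b q := hwm p q hp0 hq
      have hnm : ‖aeval θ (p * q)‖ = ‖aeval θ p‖ * ‖aeval θ q‖ := by
        rw [map_mul, norm_mul]
      have hexp : Real.exp (-(lam * wt a b (p * q))) =
          Real.exp (-(lam * wt a b p)) * Real.exp (-(lam * wt a b q)) := by
        rw [← Real.exp_add, hszm]
        congr 1
        ring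
      by_cases hdeg0 : p.natDegree = 0
      · obtain ⟨k, hk⟩ := Polynomial.natDegree_eq_zero.mp hdeg0
        have hk0 : k ≠ 0 := by
          rintro rfl
          apply hp0
          rw [← hk]
          simp
        subst hk
        have a1 := norm_C hk0 θ
        have a2 := hw0 (C k) hp0
        have a3 : Real.exp (-(lam * wt a b (C k))) ≤ 1 := by
          apply Real.exp_le_one_iff.mpr
          have := mul_nonneg hlam0.le a2
          linarith
        rw [hexp, hnm]
        constructor
        · exact mul_le_mul (le_trans a3 a1) i1 (Real.exp_pos _).le (norm_nonneg _)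
        · intro h
          have hna : 1 ≤ q.natDegree := by
            rw [Polynomial.natDegree_mul hp0 hq, Polynomial.natDegree_C] at h
            omega
          have h1 := i2 hna
          calc Real.exp (-(lam * wt a b (C k))) * Real.exp (-(lam * wt a b q))
              ≤ 1 * Real.exp (-(lam * wt a b q)) :=
                mul_le_mul_of_nonneg_right a3 (Real.exp_pos _).le
            _ < 1 * ‖aeval θ q‖ := by linarith
            _ ≤ ‖aeval θ (C k : ℤ[X])‖ * ‖aeval θ q‖ :=
                mul_le_mul_of_nonneg_right a1 (norm_nonneg _)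
      · have hdp1 : 1 ≤ p.natDegree := Nat.one_le_iff_ne_zero.mpr hdeg0
        obtain ⟨c, hc'⟩ := hdp
        have hc0 : c ≠ 0 := by
          rintro rfl
          apply hR0
          rw [hc', mul_zero]
        have hsp : mz p ≤ mz R := by
          rw [hc', hmul p c hp0 hc0]
          have := hnn c hc0
          linarith
        have hdg : p.natDegree ≤ R.natDegree := by
          rw [hc', Polynomial.natDegree_mul hp0 hc0]
          omega
        have key' : Real.exp (-(lam * wt a b p)) < ‖aeval θ p‖ :=
          hno p hp ⟨c, hc'⟩ hdp1 hdg hsp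
        have hlt : Real.exp (-(lam * wt a b p)) * Real.exp (-(lam * wt a b q)) <
            ‖aeval θ p‖ * ‖aeval θ q‖ := by
          have hpos : 0 < ‖aeval θ q‖ := lt_of_lt_of_le (Real.exp_pos _) i1
          calc Real.exp (-(lam * wt a b p)) * Real.exp (-(lam * wt a b q))
              ≤ Real.exp (-(lam * wt a b p)) * ‖aeval θ q‖ :=
                mul_le_mul_of_nonneg_left i1 (Real.exp_pos _).le
            _ < ‖aeval θ p‖ * ‖aeval θ q‖ := mul_lt_mul_of_pos_right key' hpos
        rw [hexp, hnm]
        exact ⟨hlt.le, fun _ => hlt⟩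
  have hcl := claim R hR0 dvd_rfl
  have hle : Real.exp (-A) ≤ Real.exp (-(lam * wt a b R)) := by
    apply Real.exp_le_exp.mpr
    have h1 : lam * wt a b R ≤ lam * B := mul_le_mul_of_nonneg_left hsR hlam0.le
    have h2 : lam * B = A := by
      rw [hlam]
      field_simp
    linarith
  by_cases hdR : R.natDegree = 0
  · obtain ⟨k, hk⟩ := Polynomial.natDegree_eq_zero.mp hdR
    have hk0 : k ≠ 0 := by
      rintro rfl
      apply hR0
      rw [← hk]
      simp
    have a1 := norm_C hk0 θ
    rw [hk] at a1
    have a2 : Real.exp (-A) < 1 := by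
      rw [Real.exp_lt_one_iff]
      linarith
    linarith
  · have := hcl.2 (Nat.one_le_iff_ne_zero.mpr hdR)
    linarith

end

end Pool.Agent.H75.PKER
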