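import Pool.Agent.H65.PK.Targets

/-!
Row NZK of the board pker_modules (MP_58ae59_nt): the auxiliary polynomial is in the box. After
`Pool/Agent/H37/TD/NZ.lean`.
-/

set_option autoImplicit false

open Polynomial Module Filter Topology Pool.Agent.H65.PK
open Pool.Agent.H18.TD (Un aux)
open Pool.Agent.H72.HR (pt dv box Grp Lie Std kap TT)

namespace Pool.Agent.H75.PKER

/-- the exponent vector of an unknown -/
private noncomputable def ev {r l T0 T1 : ℕ} (μ : Fin r → Fin T0) (ν : Fin l → Fin T1) :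
    (Fin r ⊕ Fin l) →₀ ℕ :=
  Finsupp.equivFunOnFinite.symm (Sum.elim (fun i => (μ i : ℕ)) (fun a => (ν a : ℕ)))

private theorem ev_inl {r l T0 T1 : ℕ} (μ : Fin r → Fin T0) (ν : Fin l → Fin T1) (i : Fin r) :
    ev μ ν (Sum.inl i) = μ i := rfl

private theorem ev_inr {r l T0 T1 : ℕ} (μ : Fin r → Fin T0) (ν : Fin l → Fin T1) (a : Fin l) :
    ev μ ν (Sum.inr a) = ν a := rfl

private theorem ev_inj {r l T0 T1 : ℕ} {μ μ' : Fin r → Fin T0} {ν ν' : Fin l → Fin T1}
    (h : ev μ ν = ev μ' ν') : μ = μ' ∧ ν = ν' := by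
  constructor
  · funext i
    have := DFunLike.congr_fun h (Sum.inl i)
    rw [ev_inl, ev_inl] at this
    exact Fin.ext this
  · funext a
    have := DFunLike.congr_fun h (Sum.inr a)
    rw [ev_inr, ev_inr] at this
    exact Fin.ext this

private theorem aux_eq {r l T0 T1 J : ℕ} (t : ℂ) (p : Un r l T0 T1 J → ℤ) :
    aux t p = ∑ w : Un r l T0 T1 J,
      MvPolynomial.monomial (ev w.1 w.2.1) ((p w : ℂ) * t ^ (w.2.2 : ℕ)) := by
  unfold aux
  refine Finset.sum_congr rfl fun w _ => ?_
  rw [MvPolynomial.monomial_eq, Finsupp.prod_fintype _ _ (fun i => pow_zero _),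
    Fintype.prod_sum_type]
  rfl

private theorem coeff_aux {r l T0 T1 J : ℕ} (t : ℂ) (p : Un r l T0 T1 J → ℤ) (μ : Fin r → Fin T0)
    (ν : Fin l → Fin T1) :
    MvPolynomial.coeff (ev μ ν) (aux t p) = ∑ j : Fin J, (p (μ, ν, j) : ℂ) * t ^ (j : ℕ) := by
  classical
  rw [aux_eq, MvPolynomial.coeff_sum]
  simp only [MvPolynomial.coeff_monomial]
  have h : ∀ w : Un r l T0 T1 J, (if ev w.1 w.2.1 = ev μ ν then (p w : ℂ) * t ^ (w.2.2 : ℕ)
      else 0) = if w.1 = μ then (if w.2.1 = ν then (p w : ℂ) * t ^ (w.2.2 : ℕ) else 0)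
      else 0 := by
    intro w
    by_cases h1 : ev w.1 w.2.1 = ev μ ν
    · obtain ⟨h2, h3⟩ := ev_inj h1
      rw [if_pos h1, if_pos h2, if_pos h3]
    · rw [if_neg h1]
      by_cases h2 : w.1 = μ
      · by_cases h3 : w.2.1 = ν
        · exact absurd (by rw [h2, h3]) h1
        · rw [if_pos h2, if_neg h3]
      · rw [if_neg h2]
  rw [Finset.sum_congr rfl fun w _ => h w, Fintype.sum_prod_type]
  rw [Finset.sum_eq_single μ, Fintype.sum_prod_type, Finset.sum_eq_single ν]
  · simp
  · intro b _ hb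
    simp [hb]
  · intro hb
    exact absurd (Finset.mem_univ _) hb
  · intro b _ hb
    simp [hb]
  · intro hb
    exact absurd (Finset.mem_univ _) hb

theorem pf_NZK : T_NZK := by
  classical
  intro r l T0 T1 J S1 t p ht hp hS
  constructor
  · intro h0
    obtain ⟨w, hw⟩ : ∃ w, p w ≠ 0 := by
      by_contra hcon
      push Not at hcon
      exact hp (funext hcon)
    obtain ⟨μ, ν, j0⟩ := w
    have h1 := coeff_aux t p μ ν
    rw [h0, MvPolynomial.coeff_zero] at h1
    rw [transcendental_iff] at ht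
    have h2 := ht (∑ j : Fin J, Polynomial.C ((p (μ, ν, j) : ℤ) : ℚ) * Polynomial.X ^ (j : ℕ))
      (by
        rw [map_sum, h1]
        refine Finset.sum_congr rfl fun j _ => ?_
        rw [map_mul, Polynomial.aeval_C, map_pow, Polynomial.aeval_X]
        simp)
    have h3 := congrArg (fun q : ℚ[X] => q.coeff (j0 : ℕ)) h2
    simp only [Polynomial.finsetSum_coeff, Polynomial.coeff_C_mul, Polynomial.coeff_X_pow,
      Polynomial.coeff_zero] at h3
    rw [Finset.sum_eq_single j0] at h3
    · rw [if_pos rfl, mul_one] at h3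
      exact hw (by exact_mod_cast h3)
    · intro b _ hb
      rw [if_neg fun h => hb (Fin.ext h.symm), mul_zero]
    · intro hb
      exact absurd (Finset.mem_univ _) hb
  · rw [aux_eq]
    unfold box
    refine Submodule.sum_mem _ fun w _ => ?_
    by_cases hpw : p w = 0
    · rw [hpw, Int.cast_zero, zero_mul, map_zero]
      exact Submodule.zero_mem _
    rw [MvPolynomial.mem_restrictSupport_iff]
    intro m hm
    have h1 := MvPolynomial.support_monomial_subset hm
    rw [Finset.mem_singleton] at h1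
    subst h1
    rintro (i | a)
    · exact (w.1 i).isLt.le
    · exact (hS w hpw a).le

end Pool.Agent.H75.PKER
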